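import Mathlib

namespace Pool.Agent.Results.MP_d97c10_lc.Ordinals

universe u

open Classical

/-- `◇X` -/
def dia {W : Type u} (R : W → W → Prop) (X : Set W) : Set W := {w | ∃ v ∈ X, R w v}

/-- the subalgebra of the modal algebra of `(W, R)` generated by `G` -/
inductive Gen {W : Type u} (R : W → W → Prop) (G : Set (Set W)) : Set W → Prop
  | base {X} : X ∈ G → Gen R G X
  | empty : Gen R G ∅
  | compl {X} : Gen R G X → Gen R G Xᶜ
  | union {X Y} : Gen R G X → Gen R G Y → Gen R G (X ∪ Y)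
  | dia {X} : Gen R G X → Gen R G (dia R X)

/-- the modal algebra of `(W, R)` is locally finite -/
def LocFin {W : Type u} (R : W → W → Prop) : Prop :=
  ∀ G : Set (Set W), G.Finite → {X | Gen R G X}.Finite

/-- unimodal formulas -/
inductive Fm
  | var (n : ℕ)
  | bot
  | imp (a b : Fm)
  | dia (a : Fm)

/-- the set of points where a formula holds under a valuation -/
def ext {W : Type u} (R : W → W → Prop) (v : ℕ → Set W) : Fm → Set W
  | .var n => v n
  | .bot => ∅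
  | .imp a b => (ext R v a)ᶜ ∪ ext R v b
  | .dia a => dia R (ext R v a)

/-- the logic of a frame -/
def Log {W : Type u} (R : W → W → Prop) : Set Fm := {φ | ∀ v, ext R v φ = Set.univ}

/-- finite model property of the logic `L` -/
def FMP (L : Set Fm) : Prop :=
  ∀ φ ∉ L, ∃ (V : Type) (_ : Finite V) (_ : Nonempty V) (S : V → V → Prop), L ⊆ Log S ∧ φ ∉ Log S

/-- `f` has a finite refinement tuned on `D` -/
def TF {W : Type u} (R : W → W → Prop) (D : Set W) {κ : Type} (f : W → κ) : Prop :=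
  ∃ (μ : Type) (_ : Finite μ) (g : W → μ), (∀ x ∈ D, ∀ y ∈ D, g x = g y → f x = f y) ∧
    ∀ x ∈ D, ∀ x' ∈ D, ∀ y ∈ D, g x = g x' → R x y → ∃ y' ∈ D, g y' = g y ∧ R x' y'

lemma glue {W : Type u} {R : W → W → Prop} {D₁ D₂ : Set W} {κ : Type} [Finite κ] {f : W → κ}
    (h : ∀ x ∈ D₂, ∀ y ∈ D₁, ¬ R x y) (hd : ∀ x ∈ D₂, x ∉ D₁)
    (h1 : ∀ (κ : Type) [Finite κ] (f : W → κ), TF R D₁ f) (h2 : TF R D₂ f) :
    TF R (D₁ ∪ D₂) f := by
  obtain ⟨μ, _, g, a, b⟩ := h2
  obtain ⟨ν, _, g', a', b'⟩ := h1 _ fun x => (f x, {k | ∃ y ∈ D₂, g y = k ∧ R x y})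
  let G : W → ν ⊕ μ := fun x => if x ∈ D₁ then .inl (g' x) else .inr (g x)
  have e1 : ∀ x ∈ D₁, G x = .inl (g' x) := fun x hx => if_pos hx
  have e2 : ∀ x ∈ D₂, G x = .inr (g x) := fun x hx => if_neg (hd x hx)
  refine ⟨ν ⊕ μ, inferInstance, G, ?_, ?_⟩
  · rintro x (hx | hx) y (hy | hy) e
    · rw [e1 x hx, e1 y hy] at e; exact congrArg Prod.fst (a' x hx y hy (by simpa using e))
    · simp [e1 x hx, e2 y hy] at e
    · simp [e2 x hx, e1 y hy] at e
    · rw [e2 x hx, e2 y hy] at e; exact a x hx y hy (by simpa using e)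
  · rintro x (hx | hx) x' (hx' | hx') y hy e r
    · rw [e1 x hx, e1 x' hx'] at e
      rcases hy with hy | hy
      · obtain ⟨y', p, q, s⟩ := b' x hx x' hx' y hy (by simpa using e) r
        exact ⟨y', .inl p, by rw [e1 _ p, e1 _ hy, q], s⟩
      · have := congrArg Prod.snd (a' x hx x' hx' (by simpa using e))
        obtain ⟨y', p, q, s⟩ : g y ∈ {k | ∃ y ∈ D₂, g y = k ∧ R x' y} :=
          (Set.ext_iff.1 this _).1 ⟨y, hy, rfl, r⟩
        exact ⟨y', .inr p, by rw [e2 _ p, e2 _ hy, q], s⟩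
    · simp [e1 x hx, e2 x' hx'] at e
    · simp [e2 x hx, e1 x' hx'] at e
    · rw [e2 x hx, e2 x' hx'] at e
      have hy := hy.resolve_left fun hy => h x hx y hy r
      obtain ⟨y', p, q, s⟩ := b x hx x' hx' y hy (by simpa using e) r
      exact ⟨y', .inr p, by rw [e2 _ p, e2 _ hy, q], s⟩

section
variable {ι : Type} [Fintype ι] {X : ι → Type u} [∀ i, LinearOrder (X i)] [∀ i, WellFoundedLT (X i)]

lemma box {R : (∀ i, X i) → (∀ i, X i) → Prop} (hR : ∀ x y, R x y → x ≤ y)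
    (H : ∀ U : ∀ i, Set (X i), (∀ x, (∀ i, x i ∈ U i) → ∃ x', (∀ i, x' i ∈ U i) ∧ ∀ y ≥ x', R x y) ∨
      ∃ c, (∀ i, c i ∈ U i) ∧ ∀ x ≥ c, ∀ y, (∀ i, y i ∈ U i) → ¬ R x y)
    (b : ∀ i, WithTop (X i)) : ∀ U : ∀ i, Set (X i), (∀ i, ∀ x ∈ U i, ↑x < b i) →
      ∀ (κ : Type) [Finite κ] (f : (∀ i, X i) → κ), TF R {x | ∀ i, x i ∈ U i} f := by
  induction b using WellFoundedLT.induction with
  | ind b ih =>
  intro U hU κ _ f
  rcases Set.eq_empty_or_nonempty {x : ∀ i, X i | ∀ i, x i ∈ U i} with h0 | ⟨x₀, h0⟩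
  · exact ⟨κ, inferInstance, f, by simp [h0], by simp [h0]⟩
  obtain ⟨c, hc, ht⟩ : ∃ c : ∀ i, X i, (∀ i, c i ∈ U i) ∧ TF R {x | ∀ i, x i ∈ U i ∧ c i ≤ x i} f := by
    rcases H U with h | ⟨c, hc, h⟩
    · have : ∀ k, ∃ c, (∀ i, c i ∈ U i) ∧ ∀ y, (∀ i, y i ∈ U i) → c ≤ y → f y = k →
          ∀ x, (∀ i, x i ∈ U i) → ∃ y', (∀ i, y' i ∈ U i) ∧ x ≤ y' ∧ f y' = k := fun k => by
        by_cases h' : ∀ x, (∀ i, x i ∈ U i) → ∃ y', (∀ i, y' i ∈ U i) ∧ x ≤ y' ∧ f y' = k
        · exact ⟨x₀, h0, fun _ _ _ _ => h'⟩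
        · push Not at h'
          obtain ⟨x, hx, h'⟩ := h'
          exact ⟨x, hx, fun y a b c => absurd c (h' y a b)⟩
      choose c hc hc' using this
      have : Nonempty κ := ⟨f x₀⟩
      choose m hm using fun i => Finite.exists_max fun k => c k i
      refine ⟨fun i => c (m i) i, fun i => hc _ i, κ, inferInstance, f, fun _ _ _ _ h => h,
        fun x hx x' hx' y hy _ _ => ?_⟩
      obtain ⟨z, hz, hz'⟩ := h x' fun i => (hx' i).1
      obtain ⟨y', p, q, r⟩ := hc' _ y (fun i => (hy i).1) (fun i => (hm i _).trans (hy i).2) rfl z hz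
      exact ⟨y', fun i => ⟨p i, (hx' i).2.trans (hR _ _ (hz' _ q) i)⟩, r, hz' _ q⟩
    · exact ⟨c, hc, κ, inferInstance, f, fun _ _ _ _ h => h, fun x hx x' hx' y hy _ r =>
        absurd r (h x (fun i => (hx i).2) y fun i => (hy i).1)⟩
  have key : ∀ T : Finset ι, TF R {x | ∀ i, x i ∈ U i ∧ (i ∉ T → c i ≤ x i)} f := by
    intro T
    induction T using Finset.induction_on with
    | empty => simpa using ht
    | insert j T hj ihT =>
      have := glue (D₁ := {x | ∀ i, x i ∈ {z ∈ U i | (i ∉ insert j T → c i ≤ z) ∧ (i = j → z < c i)}})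
        (fun x hx y hy r => ((hy j).2.2 rfl).not_ge (((hx j).2 hj).trans (hR _ _ r j)))
        (fun x hx hy => ((hy j).2.2 rfl).not_ge ((hx j).2 hj))
        (ih (Function.update b j (c j)) (by simpa using hU j _ (hc j)) _ fun i z hz => by
          by_cases h : i = j
          · subst h; simpa using hz.2.2 rfl
          · simpa [h] using hU i z hz.1) ihT
      refine (congrArg (TF R · f) ?_).mp this
      ext x
      simp only [Set.mem_union, Set.mem_ofPred_eq, Finset.mem_insert]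
      constructor
      · rintro (h | h) i
        · exact ⟨(h i).1, (h i).2.1⟩
        · exact ⟨(h i).1, fun h' => (h i).2 fun h'' => h' (.inr h'')⟩
      · intro h
        rcases lt_or_ge (x j) (c j) with h' | h'
        · exact .inl fun i => ⟨(h i).1, (h i).2, by rintro rfl; exact h'⟩
        · refine .inr fun i => ⟨(h i).1, fun h'' => ?_⟩
          by_cases e : i = j
          · exact e ▸ h'
          · exact (h i).2 (by tauto)
  simpa using key Finset.univ

lemma tun_le (κ : Type) [Finite κ] (f : (∀ i, X i) → κ) :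
    TF (fun x y : ∀ i, X i => ∀ i, x i ≤ y i) Set.univ f := by
  simpa using box (R := fun x y : ∀ i, X i => ∀ i, x i ≤ y i) (fun _ _ h => h)
    (fun U => .inl fun x hx => ⟨x, hx, fun y h => h⟩) ⊤ (fun _ => Set.univ) (by simp) κ f

lemma tun_lt (κ : Type) [Finite κ] (f : (∀ i, X i) → κ) :
    TF (fun x y : ∀ i, X i => ∀ i, x i < y i) Set.univ f := by
  simpa using box (R := fun x y : ∀ i, X i => ∀ i, x i < y i) (fun _ _ h i => (h i).le)
    (fun U => by
      by_contra h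
      push Not at h
      obtain ⟨⟨x, hx, h1⟩, h2⟩ := h
      obtain ⟨x', hx', y, hy, h⟩ := h2 x hx
      obtain ⟨z, hz, i, hi⟩ := h1 y hy
      exact (h i).not_ge ((hz i).trans (hi.trans (hx' i)))) ⊤ (fun _ => Set.univ) (by simp) κ f

end

lemma locFin {W : Type u} {R : W → W → Prop}
    (h : ∀ (κ : Type) [Finite κ] (f : W → κ), TF R Set.univ f) : LocFin R := by
  intro G hG
  have := hG.to_subtype
  obtain ⟨n, ⟨e⟩⟩ := Finite.exists_equiv_fin G
  obtain ⟨μ, _, g, a, b⟩ := h _ fun x => {i | x ∈ (e.symm i).1}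
  refine (Set.finite_range fun S : Set μ => g ⁻¹' S).subset fun X hX => ⟨g '' X, ?_⟩
  suffices ∀ x y, g x = g y → x ∈ X → y ∈ X from
    Set.ext fun y => ⟨fun ⟨x, hx, e⟩ => this x y e hx, fun hy => ⟨y, hy, rfl⟩⟩
  induction hX with
  | @base X hX =>
    intro x y e' hx
    simpa using (Set.ext_iff.1 (a x trivial y trivial e') (e ⟨X, hX⟩)).1 (by simpa using hx)
  | empty => simp
  | compl _ ih => exact fun x y e hx hy => hx (ih y x e.symm hy)
  | union _ _ ih ih' => exact fun x y e hx => hx.imp (ih x y e) (ih' x y e)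
  | dia _ ih =>
    rintro x y e ⟨v, hv, r⟩
    obtain ⟨v', -, p, q⟩ := b x trivial y trivial v trivial e r
    exact ⟨v', ih v v' p.symm hv, q⟩

/-- variables occurring in a formula are below this bound -/
def bd : Fm → ℕ
  | .var n => n + 1
  | .bot => 0
  | .imp a b => max (bd a) (bd b)
  | .dia a => bd a

lemma ext_congr {W : Type u} (R : W → W → Prop) (v v' : ℕ → Set W) :
    ∀ φ, (∀ n < bd φ, v n = v' n) → ext R v φ = ext R v' φ
  | .var n, h => h n (Nat.lt_succ_self n)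
  | .bot, _ => rfl
  | .imp a b, h => by
    rw [ext, ext, ext_congr R v v' a fun n hn => h n (lt_max_of_lt_left hn),
      ext_congr R v v' b fun n hn => h n (lt_max_of_lt_right hn)]
  | .dia a, h => by rw [ext, ext, ext_congr R v v' a h]

lemma fmp {W : Type u} {R : W → W → Prop}
    (h : ∀ (κ : Type) [Finite κ] (f : W → κ), TF R Set.univ f) : FMP (Log R) := by
  intro φ hφ
  obtain ⟨v, hv⟩ := not_forall.1 hφ
  obtain ⟨μ, _, g, a, b⟩ := h _ fun x => {i : Fin (bd φ) | x ∈ v i}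
  let p : W → Set.range g := Set.rangeFactorization g
  have hp : p.Surjective := Set.rangeFactorization_surjective
  let S : Set.range g → Set.range g → Prop := fun k l => ∃ x y, p x = k ∧ p y = l ∧ R x y
  have key : ∀ w ψ, ext R (fun n => p ⁻¹' w n) ψ = p ⁻¹' ext S w ψ := fun w ψ => by
    induction ψ with
    | var n => rfl
    | bot => rfl
    | imp a b iha ihb => simp only [ext, iha, ihb]; rfl
    | dia a ih =>
      simp only [ext, ih]
      ext x
      refine ⟨fun ⟨y, hy, r⟩ => ⟨p y, hy, x, y, rfl, rfl, r⟩, ?_⟩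
      rintro ⟨_, hy, x', y, e, rfl, r⟩
      obtain ⟨y', -, q, s⟩ := b x' trivial x trivial y trivial (congrArg Subtype.val e) r
      exact ⟨y', by rwa [Set.mem_preimage, show p y' = p y from Subtype.ext q], s⟩
  obtain ⟨x₀, -⟩ := (Set.ne_univ_iff_exists_notMem _).1 hv
  refine ⟨_, inferInstance, ⟨p x₀⟩, S, fun ψ hψ w => ?_, fun h' => hv ?_⟩
  · rw [← Set.preimage_eq_preimage hp, ← key, hψ]; rfl
  · rw [ext_congr R v (fun n => p ⁻¹' (p '' v n)), key, h']
    · rfl
    · intro n hn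
      refine Set.ext fun y => ⟨fun hy => ⟨y, hy, rfl⟩, fun ⟨x, hx, e⟩ => ?_⟩
      exact (Set.ext_iff.1 (a x trivial y trivial (congrArg Subtype.val e)) ⟨n, hn⟩).1 hx

theorem result (k : ℕ) (α : Fin k → Ordinal.{u}) :
    (LocFin (fun x y : ∀ i, Set.Iio (α i) => ∀ i, x i ≤ y i) ∧
      LocFin (fun x y : ∀ i, Set.Iio (α i) => ∀ i, x i < y i)) ∧
    FMP (Log fun x y : ∀ i, Set.Iio (α i) => ∀ i, x i ≤ y i) ∧
      FMP (Log fun x y : ∀ i, Set.Iio (α i) => ∀ i, x i < y i) :=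
  ⟨⟨locFin tun_le, locFin tun_lt⟩, fmp tun_le, fmp tun_lt⟩

end Pool.Agent.Results.MP_d97c10_lc.Ordinals
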